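import Pool.Agent.helper43.DHB.SpecB

/-!
# Project d2 (MP_5823cb_al): row bSMS: small sets of balls and mother cells (helper21)
-/

set_option autoImplicit false

open Filter Topology MeasureTheory
open scoped commutatorElement

namespace Pool.Agent.helper90.DH

open Pool.Agent.helper64.D2

/-- the rank in a finite set. -/
theorem bSMS_rank {α : Type} [LinearOrder α] (N : Finset α) :
    (∀ j ∈ N, (N.filter (· < j)).card < N.card) ∧
    ∀ j ∈ N, ∀ j' ∈ N, (N.filter (· < j)).card = (N.filter (· < j')).card → j = j' := by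
  have hlt : ∀ j ∈ N, ∀ j' ∈ N, j < j' → (N.filter (· < j)).card < (N.filter (· < j')).card := by
    intro j hj j' _ h
    refine Finset.card_lt_card ?_
    rw [Finset.ssubset_iff_of_subset]
    · exact ⟨j, Finset.mem_filter.2 ⟨hj, h⟩, fun hc => lt_irrefl j (Finset.mem_filter.1 hc).2⟩
    · intro x hx
      rw [Finset.mem_filter] at hx ⊢
      exact ⟨hx.1, hx.2.trans h⟩
  constructor
  · intro j hj
    refine Finset.card_lt_card ?_
    rw [Finset.ssubset_iff_of_subset (Finset.filter_subset _ _)]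
    exact ⟨j, hj, fun hc => lt_irrefl j (Finset.mem_filter.1 hc).2⟩
  · intro j hj j' hj' he
    rcases lt_trichotomy j j' with h | h | h
    · exact absurd he (hlt j hj j' hj' h).ne
    · exact h
    · exact absurd he (hlt j' hj' j hj h).ne'

/-- decomposition into nine partial injections. -/
theorem bSMS_nine {ι α : Type} [Fintype ι] [DecidableEq ι] [Fintype α] [LinearOrder α] (R : ι → α → α → Prop)
    [∀ i l j, Decidable (R i l j)] (W : Finset (ι × α × α)) (hW : ∀ e ∈ W, R e.1 e.2.1 e.2.2)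
    (h1 : ∀ i l, (Finset.univ.filter (fun j => R i l j)).card ≤ 3)
    (h2 : ∀ i j, (Finset.univ.filter (fun l => R i l j)).card ≤ 3) (X : ℝ)
    (hX : ∀ W' ⊆ W, (∀ e ∈ W', ∀ e' ∈ W', e.1 = e'.1 → (e.2.1 = e'.2.1 ∨ e.2.2 = e'.2.2) → e = e') →
      (W'.card : ℝ) ≤ X) : (W.card : ℝ) ≤ 9 * X := by
  set col : ι × α × α → ℕ × ℕ := fun e =>
    (((Finset.univ.filter (fun j => R e.1 e.2.1 j)).filter (· < e.2.2)).card,
      ((Finset.univ.filter (fun l => R e.1 l e.2.2)).filter (· < e.2.1)).card) with hcol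
  have hmaps : ∀ e ∈ W, col e ∈ Finset.range 3 ×ˢ Finset.range 3 := by
    intro e he
    rw [Finset.mem_product, Finset.mem_range, Finset.mem_range]
    have hR := hW e he
    refine ⟨?_, ?_⟩
    · exact ((bSMS_rank _).1 e.2.2 (Finset.mem_filter.2 ⟨Finset.mem_univ _, hR⟩)).trans_le (h1 e.1 e.2.1)
    · exact ((bSMS_rank _).1 e.2.1 (Finset.mem_filter.2 ⟨Finset.mem_univ _, hR⟩)).trans_le (h2 e.1 e.2.2)
  rw [Finset.card_eq_sum_card_fiberwise hmaps]
  push_cast
  calc ∑ c ∈ Finset.range 3 ×ˢ Finset.range 3, ((W.filter (fun e => col e = c)).card : ℝ)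
      ≤ ∑ _c ∈ Finset.range 3 ×ˢ Finset.range 3, X := by
        refine Finset.sum_le_sum fun c _ => hX _ (Finset.filter_subset _ _) ?_
        intro e he e' he' hi hor
        rw [Finset.mem_filter] at he he'
        have hR := hW e he.1
        have hR' := hW e' he'.1
        obtain ⟨i, l, j⟩ := e
        obtain ⟨i', l', j'⟩ := e'
        simp only at hi hor hR hR'
        subst hi
        have hc := he.2.trans he'.2.symm
        rw [hcol] at hc
        simp only [Prod.mk.injEq] at hc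
        rcases hor with h | h
        · subst h
          have h3 := (bSMS_rank (Finset.univ.filter (fun j => R i l j))).2 j
            (Finset.mem_filter.2 ⟨Finset.mem_univ _, hR⟩) j' (Finset.mem_filter.2 ⟨Finset.mem_univ _, hR'⟩) hc.1
          rw [h3]
        · subst h
          have h3 := (bSMS_rank (Finset.univ.filter (fun l => R i l j))).2 l
            (Finset.mem_filter.2 ⟨Finset.mem_univ _, hR⟩) l' (Finset.mem_filter.2 ⟨Finset.mem_univ _, hR'⟩) hc.2
          rw [h3]
    _ = 9 * X := by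
        rw [Finset.sum_const, Finset.card_product, Finset.card_range, nsmul_eq_mul]
        norm_num

/-- the index of an element. -/
noncomputable def bSMS_idx {α : Type} [DecidableEq α] (S : Finset α) (l : α) : ℕ :=
  if h : l ∈ S then (S.equivFin ⟨l, h⟩ : ℕ) else 0

/-- the point with a given index. -/
noncomputable def bSMS_pt {α : Type} (cen : α → ℝ) (S : Finset α) (a : ℕ) : ℝ :=
  if h : a < S.card then cen (S.equivFin.symm ⟨a, h⟩) else 1 / 2

theorem bSMS_idx_lt {α : Type} [DecidableEq α] (S : Finset α) (l : α) (h : l ∈ S) : bSMS_idx S l < S.card := by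
  unfold bSMS_idx
  rw [dif_pos h]
  exact (S.equivFin ⟨l, h⟩).2

theorem bSMS_idx_inj {α : Type} [DecidableEq α] (S : Finset α) (l l' : α) (h : l ∈ S) (h' : l' ∈ S)
    (he : bSMS_idx S l = bSMS_idx S l') : l = l' := by
  unfold bSMS_idx at he
  rw [dif_pos h, dif_pos h'] at he
  have h1 := S.equivFin.injective (Fin.ext he)
  exact congrArg Subtype.val h1

theorem bSMS_pt_idx {α : Type} [DecidableEq α] (cen : α → ℝ) (S : Finset α) (l : α) (h : l ∈ S) :
    bSMS_pt cen S (bSMS_idx S l) = cen l := by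
  unfold bSMS_pt
  rw [dif_pos (bSMS_idx_lt S l h)]
  have h1 : (⟨bSMS_idx S l, bSMS_idx_lt S l h⟩ : Fin S.card) = S.equivFin ⟨l, h⟩ := by
    apply Fin.ext
    show bSMS_idx S l = _
    unfold bSMS_idx
    rw [dif_pos h]
  rw [h1, Equiv.symm_apply_apply]

/-- the final inequality. -/
theorem bSMS_fin (e F s t th q b : ℝ) (he0 : 0 ≤ e) (hF0 : 0 ≤ F) (hs0 : 0 ≤ s) (ht0 : 0 ≤ t) (hth : 0 ≤ th)
    (hq0 : 0 ≤ q) (hb : 0 ≤ b) (hnum : 54 * th * q ≤ b ^ 2 * F) (hA1 : e ≤ 3 * (F * s)) (hA2 : e ≤ 3 * (F * t))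
    (hB : e ≤ 9 * (th * q * (s + t))) : e ≤ b * F * √(s * t) := by
  have hsq : e ^ 2 ≤ 54 * th * q * (F * (s * t)) := by
    rcases le_total s t with h | h
    · calc e ^ 2 = e * e := sq e
        _ ≤ (3 * (F * s)) * (9 * (th * q * (s + t))) := mul_le_mul hA1 hB he0 (by positivity)
        _ ≤ (3 * (F * s)) * (9 * (th * q * (t + t))) := by gcongr
        _ = 54 * th * q * (F * (s * t)) := by ring
    · calc e ^ 2 = e * e := sq e
        _ ≤ (3 * (F * t)) * (9 * (th * q * (s + t))) := mul_le_mul hA2 hB he0 (by positivity)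
        _ ≤ (3 * (F * t)) * (9 * (th * q * (s + s))) := by gcongr
        _ = 54 * th * q * (F * (s * t)) := by ring
  have hsq2 : e ^ 2 ≤ (b * F * √(s * t)) ^ 2 := by
    rw [mul_pow, Real.sq_sqrt (by positivity)]
    calc e ^ 2 ≤ 54 * th * q * (F * (s * t)) := hsq
      _ ≤ (b ^ 2 * F) * (F * (s * t)) := by gcongr
      _ = (b * F) ^ 2 * (s * t) := by ring
  exact (pow_le_pow_iff_left₀ he0 (by positivity) two_ne_zero).1 hsq2

theorem bSMS (hTCH : bTCH_stmt) : bSMS_stmt := by
  classical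
  intro q m φ u C0 P B τ th b ks hNM hu hτ0 hτ hth hb hnum hC hSPR S T hST
  obtain ⟨hd1, hd2, hcen⟩ := hTCH {i // i ∈ fam q m φ} (fun i => P i) (fun i => B i) u τ (fun i => hNM i) hu hτ0 hτ
  set R : {i // i ∈ fam q m φ} → Fin (2 ^ u) → Fin (2 ^ u) → Prop := fun i l j =>
    tch (fun i : {i // i ∈ fam q m φ} => P i) (fun i : {i // i ∈ fam q m φ} => B i) u τ i l j with hR
  have hR1 : ∀ i l, (Finset.univ.filter (fun j => R i l j)).card ≤ 3 := by
    intro i l
    have h1 := hd1 i l
    rw [Set.ncard_eq_toFinset_card'] at h1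
    rwa [Set.toFinset_ofPred] at h1
  have hR2 : ∀ i j, (Finset.univ.filter (fun l => R i l j)).card ≤ 3 := by
    intro i j
    have h1 := hd2 i j
    rw [Set.ncard_eq_toFinset_card'] at h1
    rwa [Set.toFinset_ofPred] at h1
  set W : Finset ({i // i ∈ fam q m φ} × Fin (2 ^ u) × Fin (2 ^ u)) :=
    Finset.univ.filter (fun e => e.2.1 ∈ S ∧ e.2.2 ∈ T ∧ R e.1 e.2.1 e.2.2) with hWdef
  have hWset : {e : {i // i ∈ fam q m φ} × Fin (2 ^ u) × Fin (2 ^ u) | e.2.1 ∈ S ∧ e.2.2 ∈ T ∧
      tch (fun i : {i // i ∈ fam q m φ} => P i) (fun i : {i // i ∈ fam q m φ} => B i) u τ e.1 e.2.1 e.2.2} = ↑W := by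
    ext e
    rw [hWdef, Finset.coe_filter]
    simp only [Set.mem_ofPred_eq, Finset.mem_univ, true_and, hR]
  rw [hWset, Set.ncard_coe_finset]
  have hmem : ∀ e ∈ W, e.2.1 ∈ S ∧ e.2.2 ∈ T ∧ R e.1 e.2.1 e.2.2 := fun e he => (Finset.mem_filter.1 he).2
  have hcardι : Fintype.card {i // i ∈ fam q m φ} = (fam q m φ).card := Fintype.card_coe _
  -- trivial bounds
  have hA1 : W.card ≤ 3 * ((fam q m φ).card * S.card) := by
    have h1 : ∀ e ∈ W, (e.1, e.2.1) ∈ (Finset.univ : Finset {i // i ∈ fam q m φ}) ×ˢ S := fun e he =>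
      Finset.mem_product.2 ⟨Finset.mem_univ _, (hmem e he).1⟩
    have h2 := Finset.card_le_mul_card_image_of_maps_to h1 3 (by
      rintro ⟨i, l⟩ _
      refine (Finset.card_le_card_of_injOn (fun e => e.2.2) (t := Finset.univ.filter (fun j => R i l j)) ?_ ?_).trans
        (hR1 i l)
      · intro e he
        rw [Finset.mem_coe, Finset.mem_filter] at he
        simp only [Prod.mk.injEq] at he
        rw [Finset.mem_coe, Finset.mem_filter]
        refine ⟨Finset.mem_univ _, ?_⟩
        have h3 := (hmem e he.1).2.2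
        rw [he.2.1, he.2.2] at h3
        exact h3
      · intro e he e' he' hee
        rw [Finset.mem_coe, Finset.mem_filter] at he he'
        simp only [Prod.mk.injEq] at he he'
        exact Prod.ext (he.2.1.trans he'.2.1.symm) (Prod.ext (he.2.2.trans he'.2.2.symm) hee))
    rwa [Finset.card_product, Finset.card_univ, hcardι] at h2
  have hA2 : W.card ≤ 3 * ((fam q m φ).card * T.card) := by
    have h1 : ∀ e ∈ W, (e.1, e.2.2) ∈ (Finset.univ : Finset {i // i ∈ fam q m φ}) ×ˢ T := fun e he =>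
      Finset.mem_product.2 ⟨Finset.mem_univ _, (hmem e he).2.1⟩
    have h2 := Finset.card_le_mul_card_image_of_maps_to h1 3 (by
      rintro ⟨i, j⟩ _
      refine (Finset.card_le_card_of_injOn (fun e => e.2.1) (t := Finset.univ.filter (fun l => R i l j)) ?_ ?_).trans
        (hR2 i j)
      · intro e he
        rw [Finset.mem_coe, Finset.mem_filter] at he
        simp only [Prod.mk.injEq] at he
        rw [Finset.mem_coe, Finset.mem_filter]
        refine ⟨Finset.mem_univ _, ?_⟩
        have h3 := (hmem e he.1).2.2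
        rw [he.2.1, he.2.2] at h3
        exact h3
      · intro e he e' he' hee
        rw [Finset.mem_coe, Finset.mem_filter] at he he'
        simp only [Prod.mk.injEq] at he he'
        exact Prod.ext (he.2.1.trans he'.2.1.symm) (Prod.ext hee (he.2.2.trans he'.2.2.symm)))
    rwa [Finset.card_product, Finset.card_univ, hcardι] at h2
  -- the centres
  set cen : Fin (2 ^ u) → ℝ := fun l => if (((l : ℕ) : ℝ) + 1 / 2) / 2 ^ u ∈ Set.Icc (1 / 6 : ℝ) (5 / 6) then
    (((l : ℕ) : ℝ) + 1 / 2) / 2 ^ u else 1 / 2 with hcendef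
  have hcI : ∀ l, cen l ∈ Set.Icc (1 / 6 : ℝ) (5 / 6) := by
    intro l
    rw [hcendef]
    show (if _ then _ else _) ∈ _
    split_ifs with h
    · exact h
    · constructor <;> norm_num
  have hptI : ∀ (S' : Finset (Fin (2 ^ u))) (a : ℕ), bSMS_pt cen S' a ∈ Set.Icc (1 / 6 : ℝ) (5 / 6) := by
    intro S' a
    unfold bSMS_pt
    split_ifs with h
    · exact hcI _
    · constructor <;> norm_num
  set p : ℕ → ℝ := fun a => if a < S.card then bSMS_pt cen S a else bSMS_pt cen T (a - S.card) with hp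
  have hpI : ∀ a, p a ∈ Set.Icc (1 / 6 : ℝ) (5 / 6) := by
    intro a
    rw [hp]
    show (if _ then _ else _) ∈ _
    split_ifs
    · exact hptI _ _
    · exact hptI _ _
  -- partial injections
  have hPI : ∀ W' ⊆ W, (∀ e ∈ W', ∀ e' ∈ W', e.1 = e'.1 → (e.2.1 = e'.2.1 ∨ e.2.2 = e'.2.2) → e = e') →
      (W'.card : ℝ) ≤ th * q * ((S.card : ℝ) + T.card) := by
    intro W' hW' hpi
    set Fm : {i // i ∈ fam q m φ} × Fin (2 ^ u) × Fin (2 ^ u) → ℕ × ℕ × ℕ := fun e =>
      ((e.1 : ℕ), bSMS_idx S e.2.1, S.card + bSMS_idx T e.2.2) with hFm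
    have hFinj : ∀ e ∈ W', ∀ e' ∈ W', Fm e = Fm e' → e = e' := by
      intro e he e' he' hee
      rw [hFm] at hee
      simp only [Prod.mk.injEq] at hee
      have h1 := hmem e (hW' he)
      have h2 := hmem e' (hW' he')
      exact Prod.ext (Subtype.ext hee.1) (Prod.ext (bSMS_idx_inj S _ _ h1.1 h2.1 hee.2.1)
        (bSMS_idx_inj T _ _ h1.2.1 h2.2.1 (by omega)))
    have hcard : (W'.image Fm).card = W'.card := Finset.card_image_of_injOn fun e he e' he' h => hFinj e he e' he' h
    have h1 := hSPR (S.card + T.card) (by push_cast; exact hST) p (W'.image Fm) (fun a _ => hpI a) (by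
      intro e he
      obtain ⟨e', he', rfl⟩ := Finset.mem_image.1 he
      obtain ⟨g1, g2, g3⟩ := hmem e' (hW' he')
      obtain ⟨c1, c2, c3⟩ := hcen e'.1 e'.2.1 e'.2.2 g3
      have i1 := bSMS_idx_lt S _ g1
      have i2 := bSMS_idx_lt T _ g2
      refine ⟨?_, ?_, ?_, ?_⟩
      · have h3 := e'.1.2
        unfold fam at h3
        exact Finset.mem_range.1 (Finset.mem_filter.1 h3).1
      · show bSMS_idx S e'.2.1 < S.card + T.card
        omega
      · show S.card + bSMS_idx T e'.2.2 < S.card + T.card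
        omega
      · show |C0 (e'.1 : ℕ) (p (bSMS_idx S e'.2.1)) - p (S.card + bSMS_idx T e'.2.2)| ≤ 4 / 2 ^ u
        have p1 : p (bSMS_idx S e'.2.1) = (((e'.2.1 : ℕ) : ℝ) + 1 / 2) / 2 ^ u := by
          rw [hp]
          show (if bSMS_idx S e'.2.1 < S.card then bSMS_pt cen S (bSMS_idx S e'.2.1) else _) = _
          rw [if_pos i1, bSMS_pt_idx cen S _ g1, hcendef]
          exact if_pos c1
        have p2 : p (S.card + bSMS_idx T e'.2.2) = (((e'.2.2 : ℕ) : ℝ) + 1 / 2) / 2 ^ u := by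
          rw [hp]
          show (if S.card + bSMS_idx T e'.2.2 < S.card then _ else bSMS_pt cen T (S.card + bSMS_idx T e'.2.2 - S.card)) = _
          rw [if_neg (by omega), Nat.add_sub_cancel_left, bSMS_pt_idx cen T _ g2, hcendef]
          exact if_pos c2
        rw [p1, p2]
        have h4 := hC (e'.1 : ℕ) ((((e'.2.1 : ℕ) : ℝ) + 1 / 2) / 2 ^ u)
        have h5 : (0 : ℝ) < 2 ^ u := by positivity
        have h6 : |C0 (e'.1 : ℕ) ((((e'.2.1 : ℕ) : ℝ) + 1 / 2) / 2 ^ u) - (((e'.2.2 : ℕ) : ℝ) + 1 / 2) / 2 ^ u| ≤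
            1 / 2 ^ u + 2 / 2 ^ u := by
          refine (abs_sub_le _ (P (e'.1 : ℕ) (B (e'.1 : ℕ) ((((e'.2.1 : ℕ) : ℝ) + 1 / 2) / 2 ^ u))) _).trans ?_
          rw [abs_sub_comm]
          exact add_le_add h4 c3
        refine h6.trans ?_
        rw [← add_div]
        gcongr
        norm_num) (by
      intro e he f hf hef hor
      obtain ⟨e', he', rfl⟩ := Finset.mem_image.1 he
      obtain ⟨f', hf', rfl⟩ := Finset.mem_image.1 hf
      have g := hmem e' (hW' he')
      have g' := hmem f' (hW' hf')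
      have h3 : e' = f' := by
        refine hpi e' he' f' hf' (Subtype.ext hef) ?_
        rcases hor with h | h
        · exact Or.inl (bSMS_idx_inj S _ _ g.1 g'.1 h)
        · refine Or.inr (bSMS_idx_inj T _ _ g.2.1 g'.2.1 ?_)
          have h4 : S.card + bSMS_idx T e'.2.2 = S.card + bSMS_idx T f'.2.2 := h
          omega
      rw [h3])
    rw [hcard] at h1
    push_cast at h1
    exact h1
  have hB := bSMS_nine R W (fun e he => (hmem e he).2.2) hR1 hR2 _ hPI
  -- the final inequality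
  have hA1' : (W.card : ℝ) ≤ 3 * ((fam q m φ).card * S.card) := by exact_mod_cast hA1
  have hA2' : (W.card : ℝ) ≤ 3 * ((fam q m φ).card * T.card) := by exact_mod_cast hA2
  exact bSMS_fin _ _ _ _ th q b (Nat.cast_nonneg _) (Nat.cast_nonneg _) (Nat.cast_nonneg _) (Nat.cast_nonneg _) hth
    (Nat.cast_nonneg _) hb hnum hA1' hA2' hB

end Pool.Agent.helper90.DH
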